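import Pool.Agent.Helper719.Haar.Main
import Pool.Agent.Helper719.Signs.HaarS
import Pool.Agent.Helper719.Avg.Final

open MeasureTheory

namespace Pool.Agent.Results.MP_fb6d12_an.Combined

open HaarSB

/-- The small ball inequality for hyperbolic Haar sums with the conjectured exponent, `d ≥ 3`:
(1) volume form, (2) smoothed form, (3) all but `2^(εN)` sign patterns for moduli in `[δ, 1]`,
(4) all but `ε 2^N` sign patterns for arbitrary moduli. -/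
theorem result (d : ℕ) (hd : 3 ≤ d) :
    (∃ C : ℝ, 0 < C ∧ ∀ n : ℕ, 1 ≤ n → ∀ l : ℝ, 0 < l →
      volume {a : Rect d n → ℝ | supNorm a ≤ l} ≤
        ENNReal.ofReal ((C * l / Real.sqrt ((n:ℝ)^d)) ^ (Fintype.card (Rect d n)))) ∧
    (∀ δ ε : ℝ, 0 < δ → 0 < ε → ∃ c : ℝ, 0 < c ∧ ∀ n : ℕ, 1 ≤ n →
      ∀ u : Rect d n → ℝ, (∀ R, |u R| ≤ 1) →
        volume {a : Rect d n → ℝ | (∀ R, |a R - u R| ≤ δ) ∧
          (n:ℝ)^(((d:ℝ) - 2) / 2) * supNorm a < c * ((2:ℝ)^n)⁻¹ * ∑ R, |a R|} ≤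
        ENNReal.ofReal (ε ^ Fintype.card (Rect d n)) *
          volume {a : Rect d n → ℝ | ∀ R, |a R - u R| ≤ δ}) ∧
    (∀ ε δ : ℝ, 0 < ε → 0 < δ → ∃ c : ℝ, 0 < c ∧ ∀ n : ℕ, 1 ≤ n →
      ∀ b : Rect d n → ℝ, (∀ R, δ ≤ |b R| ∧ |b R| ≤ 1) →
        (Set.ncard {u : Finset (Rect d n) |
          (n:ℝ)^(((d:ℝ) - 2) / 2) * supNorm (fun R => if R ∈ u then b R else - b R) <
            c * ((2:ℝ)^n)⁻¹ * ∑ R, |b R|} : ℝ) ≤ (2:ℝ)^(ε * Fintype.card (Rect d n))) ∧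
    (∀ ε : ℝ, 0 < ε → ∃ c : ℝ, 0 < c ∧ ∀ n : ℕ, 1 ≤ n → ∀ b : Rect d n → ℝ,
      (Set.ncard {u : Finset (Rect d n) |
        (n:ℝ)^(((d:ℝ) - 2) / 2) * supNorm (fun R => if R ∈ u then b R else - b R) <
          c * ((2:ℝ)^n)⁻¹ * ∑ R, |b R|} : ℝ) ≤ ε * 2 ^ Fintype.card (Rect d n)) :=
  ⟨vol_haar d hd, fun δ ε hδ hε => smooth d hd δ ε hδ hε, fun ε δ hε hδ => signs d hd ε δ hε hδ,
    fun ε hε => prob_signs d hd ε hε⟩

end Pool.Agent.Results.MP_fb6d12_an.Combined
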