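import Pool.Agent.Helper719.Avg.Final

open MeasureTheory

namespace Pool.Agent.Results.MP_fb6d12_an.RandomSigns

open HaarSB

/-- The small ball inequality with the conjectured exponent for arbitrary moduli and random signs:
on average over the `2^N` sign patterns, and for all but a proportion `ε` of them (`u` is the set of
rectangles whose coefficient keeps its sign). -/
theorem result (d : ℕ) (hd : 3 ≤ d) :
    (∃ c : ℝ, 0 < c ∧ ∀ n : ℕ, 1 ≤ n → ∀ b : Rect d n → ℝ,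
      c * ((2:ℝ)^n)⁻¹ * ∑ R, |b R| ≤ (n:ℝ)^(((d:ℝ) - 2) / 2) *
        ((∑ u : Finset (Rect d n), supNorm (fun R => if R ∈ u then b R else - b R)) /
          2 ^ Fintype.card (Rect d n))) ∧
    (∀ ε : ℝ, 0 < ε → ∃ c : ℝ, 0 < c ∧ ∀ n : ℕ, 1 ≤ n → ∀ b : Rect d n → ℝ,
      (Set.ncard {u : Finset (Rect d n) |
        (n:ℝ)^(((d:ℝ) - 2) / 2) * supNorm (fun R => if R ∈ u then b R else - b R) <
          c * ((2:ℝ)^n)⁻¹ * ∑ R, |b R|} : ℝ) ≤ ε * 2 ^ Fintype.card (Rect d n)) :=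
  ⟨avg_signs d hd, fun ε hε => prob_signs d hd ε hε⟩

end Pool.Agent.Results.MP_fb6d12_an.RandomSigns
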