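import Pool.Agent.Helper719.Signs.HaarS

open MeasureTheory

namespace Pool.Agent.Results.MP_fb6d12_an.Signs

open HaarSB

/-- The small ball inequality for all but `2^(εN)` of the `2^N` sign patterns (the set `u` is the
set of rectangles whose coefficient keeps its sign). -/
theorem result (d : ℕ) (hd : 3 ≤ d) (ε δ : ℝ) (hε : 0 < ε) (hδ : 0 < δ) :
    ∃ c : ℝ, 0 < c ∧ ∀ n : ℕ, 1 ≤ n → ∀ b : Rect d n → ℝ, (∀ R, δ ≤ |b R| ∧ |b R| ≤ 1) →
      (Set.ncard {u : Finset (Rect d n) |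
        (n:ℝ)^(((d:ℝ) - 2) / 2) * supNorm (fun R => if R ∈ u then b R else - b R) <
          c * ((2:ℝ)^n)⁻¹ * ∑ R, |b R|} : ℝ) ≤ (2:ℝ)^(ε * Fintype.card (Rect d n)) :=
  signs d hd ε δ hε hδ

end Pool.Agent.Results.MP_fb6d12_an.Signs
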