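import Pool.Agent.Helper719.Haar.Main

open MeasureTheory

namespace Pool.Agent.Results.MP_fb6d12_an.Smoothed

open HaarSB

/-- Volume form and smoothed form of the small ball inequality for hyperbolic Haar sums, `d ≥ 3`. -/
theorem result (d : ℕ) (hd : 3 ≤ d) :
    (∃ C : ℝ, 0 < C ∧ ∀ n : ℕ, 1 ≤ n → ∀ l : ℝ, 0 < l →
      volume {a : Rect d n → ℝ | supNorm a ≤ l} ≤
        ENNReal.ofReal ((C * l / Real.sqrt ((n:ℝ)^d)) ^ (Fintype.card (Rect d n)))) ∧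
    (∀ δ ε : ℝ, 0 < δ → 0 < ε → ∃ c : ℝ, 0 < c ∧ ∀ n : ℕ, 1 ≤ n →
      ∀ u : Rect d n → ℝ, (∀ R, |u R| ≤ 1) →
        volume {a : Rect d n → ℝ | (∀ R, |a R - u R| ≤ δ) ∧
          (n:ℝ)^(((d:ℝ) - 2) / 2) * supNorm a < c * ((2:ℝ)^n)⁻¹ * ∑ R, |a R|} ≤
        ENNReal.ofReal (ε ^ Fintype.card (Rect d n)) *
          volume {a : Rect d n → ℝ | ∀ R, |a R - u R| ≤ δ}) :=
  ⟨vol_haar d hd, fun δ ε hδ hε => smooth d hd δ ε hδ hε⟩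

end Pool.Agent.Results.MP_fb6d12_an.Smoothed
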